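import Mathlib

set_option autoImplicit false

namespace Pool.Agent.Results.MP_f66848_co.LimitHalf

open Finset

/-- `PropChoosable G k`: the finite graph `G` is proportionally `k`-choosable, i.e. for every
assignment `L` of a list of exactly `k` colours (colours are natural numbers) to each vertex there
is a map `f` with `f v ∈ L v`, proper (adjacent vertices get different colours), such that every
colour `c` in the palette is used either `⌊η(c)/k⌋` or `⌈η(c)/k⌉` times, where `η(c)` is the
number of vertices whose list contains `c`. -/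
def PropChoosable {V : Type} [Fintype V] (G : SimpleGraph V) (k : ℕ) : Prop :=
  ∀ L : V → Finset ℕ, (∀ v, (L v).card = k) →
    ∃ f : V → ℕ, (∀ v, f v ∈ L v) ∧ (∀ u v, G.Adj u v → f u ≠ f v) ∧
      ∀ c : ℕ, (∃ v, c ∈ L v) →
        ((univ.filter (fun v => f v = c)).card =
            ⌊((univ.filter (fun v => c ∈ L v)).card : ℚ) / (k : ℚ)⌋₊ ∨
         (univ.filter (fun v => f v = c)).card =
            ⌈((univ.filter (fun v => c ∈ L v)).card : ℚ) / (k : ℚ)⌉₊)

/-- The proportional choice number: the least `k ≥ 1` such that `G` is proportionally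
`k`-choosable. -/
noncomputable def propChoiceNumber {V : Type} [Fintype V] (G : SimpleGraph V) : ℕ :=
  sInf {k : ℕ | 1 ≤ k ∧ PropChoosable G k}

/-- A Mendelsohn-Dulmage type lemma. -/
theorem mendelsohn_dulmage {α β : Type} (R : α → β → Prop) (U : Set β)
    (f : α → β) (hf : Function.Injective f) (hfr : ∀ a, R a (f a))
    (g : U → α) (hg : Function.Injective g) (hgr : ∀ u : U, R (g u) u) :
    ∃ h : α → β, Function.Injective h ∧ (∀ a, R a (h a)) ∧ ∀ u ∈ U, ∃ a, h a = u := by
  classical
  set F : Set α →o Set α :=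
    { toFun := fun s => g '' {u : U | (u : β) ∉ f '' sᶜ}
      monotone' := by
        intro s t hst
        apply Set.image_mono
        intro u hu hu'
        apply hu
        exact Set.image_mono (Set.compl_subset_compl.mpr hst) hu' }
  set D : Set α := F.lfp
  have hD : g '' {u : U | (u : β) ∉ f '' Dᶜ} = D := F.map_lfp
  have hchoose : ∀ a : D, ∃ u : U, g u = a ∧ (u : β) ∉ f '' Dᶜ := by
    intro a
    have ha : (a : α) ∈ g '' {u : U | (u : β) ∉ f '' Dᶜ} := by rw [hD]; exact a.2
    obtain ⟨u, hu, hgu⟩ := ha
    exact ⟨u, hgu, hu⟩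
  choose k hk1 hk2 using hchoose
  refine ⟨fun a => if h : a ∈ D then (k ⟨a, h⟩ : β) else f a, ?_, ?_, ?_⟩
  · intro a b hab
    by_cases ha : a ∈ D <;> by_cases hb : b ∈ D
    · simp only [ha, hb, dif_pos] at hab
      have h1 : k ⟨a, ha⟩ = k ⟨b, hb⟩ := Subtype.ext hab
      have h2 := hk1 ⟨a, ha⟩
      rw [h1, hk1 ⟨b, hb⟩] at h2
      exact h2.symm
    · simp only [ha, hb, dif_pos, dif_neg, not_false_iff] at hab
      exact absurd ⟨b, hb, hab.symm⟩ (hk2 ⟨a, ha⟩)
    · simp only [ha, hb, dif_pos, dif_neg, not_false_iff] at hab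
      exact absurd ⟨a, ha, hab⟩ (hk2 ⟨b, hb⟩)
    · simp only [ha, hb, dif_neg, not_false_iff] at hab
      exact hf hab
  · intro a
    by_cases ha : a ∈ D
    · simp only [ha, dif_pos]
      have := hgr (k ⟨a, ha⟩)
      rw [hk1 ⟨a, ha⟩] at this
      exact this
    · simp only [ha, dif_neg, not_false_iff]
      exact hfr a
  · intro u hu
    by_cases h : u ∈ f '' Dᶜ
    · obtain ⟨a, ha, hau⟩ := h
      refine ⟨a, ?_⟩
      have ha' : a ∉ D := ha
      simp only [ha', dif_neg, not_false_iff]
      exact hau
    · have hmem : g ⟨u, hu⟩ ∈ D := by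
        rw [← hD]
        exact ⟨⟨u, hu⟩, h, rfl⟩
      refine ⟨g ⟨u, hu⟩, ?_⟩
      simp only [hmem, dif_pos]
      have h1 := hk1 ⟨g ⟨u, hu⟩, hmem⟩
      have h2 := hg h1
      rw [h2]

/-- Assignment lemma: lists `t`, capacities `cap`, must-use colours `U`. -/
theorem assign {V : Type} [Fintype V] [DecidableEq V] (t : V → Finset ℕ) (cap : ℕ → ℕ)
    (U : Finset ℕ) (hcapU : ∀ c ∈ U, 1 ≤ cap c)
    (H1 : ∀ X : Finset V, X.card ≤ ∑ c ∈ X.biUnion t, cap c)
    (g : U → V) (hg : Function.Injective g) (hgt : ∀ u : U, (u : ℕ) ∈ t (g u)) :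
    ∃ f : V → ℕ, (∀ v, f v ∈ t v) ∧ (∀ c, (univ.filter (fun v => f v = c)).card ≤ cap c) ∧
      (∀ c ∈ U, 1 ≤ (univ.filter (fun v => f v = c)).card) := by
  classical
  set T : V → Finset (ℕ × ℕ) := fun v =>
    (t v).biUnion (fun c => (range (cap c)).image (fun i => (c, i))) with hT
  have hmemT : ∀ v p, p ∈ T v ↔ p.1 ∈ t v ∧ p.2 < cap p.1 := by
    intro v p
    simp only [hT, mem_biUnion, mem_image, mem_range]
    constructor
    · rintro ⟨c, hc, i, hi, rfl⟩
      exact ⟨hc, hi⟩
    · rintro ⟨h1, h2⟩
      exact ⟨p.1, h1, p.2, h2, rfl⟩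
  have hcardT : ∀ X : Finset V, (X.biUnion T).card = ∑ c ∈ X.biUnion t, cap c := by
    intro X
    have : X.biUnion T =
        (X.biUnion t).biUnion (fun c => (range (cap c)).image (fun i => (c, i))) := by
      ext p
      simp only [mem_biUnion, hmemT, mem_image, mem_range]
      constructor
      · rintro ⟨v, hv, h1, h2⟩
        exact ⟨p.1, ⟨v, hv, h1⟩, p.2, h2, rfl⟩
      · rintro ⟨c, ⟨v, hv, hc⟩, i, hi, rfl⟩
        exact ⟨v, hv, hc, hi⟩
    rw [this, card_biUnion]
    · apply sum_congr rfl
      intro c _
      rw [card_image_of_injective _ (fun a b hab => (Prod.mk.inj hab).2), card_range]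
    · intro c _ d _ hcd
      change Disjoint _ _
      rw [disjoint_left]
      intro p hp hq
      simp only [mem_image, mem_range] at hp hq
      obtain ⟨i, _, rfl⟩ := hp
      obtain ⟨j, _, hj⟩ := hq
      exact hcd (Prod.mk.inj hj).1.symm
  have hHall : ∀ X : Finset V, X.card ≤ (X.biUnion T).card := by
    intro X
    rw [hcardT]
    exact H1 X
  obtain ⟨F, hFinj, hFmem⟩ := (Finset.all_card_le_biUnion_card_iff_exists_injective T).mp hHall
  set R : V → ℕ × ℕ → Prop := fun v p => p ∈ T v with hR
  set US : Set (ℕ × ℕ) := {p | p.1 ∈ U ∧ p.2 = 0} with hUS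
  obtain ⟨h, hinj, hrel, hcov⟩ := mendelsohn_dulmage R US F hFinj hFmem
    (fun u => g ⟨u.1.1, u.2.1⟩)
    (by
      intro a b hab
      have := hg hab
      have h1 : a.1.1 = b.1.1 := congrArg Subtype.val this
      apply Subtype.ext
      apply Prod.ext h1
      rw [a.2.2, b.2.2])
    (by
      intro u
      simp only [hR, hmemT]
      refine ⟨hgt ⟨u.1.1, u.2.1⟩, ?_⟩
      rw [u.2.2]
      exact hcapU _ u.2.1)
  refine ⟨fun v => (h v).1, ?_, ?_, ?_⟩
  · intro v
    exact ((hmemT v (h v)).mp (hrel v)).1
  · intro c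
    have : ((univ.filter (fun v => (h v).1 = c)).image (fun v => (h v).2)).card ≤ cap c := by
      have hsub : (univ.filter (fun v => (h v).1 = c)).image (fun v => (h v).2) ⊆
          range (cap c) := by
        intro i hi
        simp only [mem_image, mem_filter, mem_univ, true_and] at hi
        obtain ⟨v, hv, rfl⟩ := hi
        rw [mem_range, ← hv]
        exact ((hmemT v (h v)).mp (hrel v)).2
      calc _ ≤ (range (cap c)).card := card_le_card hsub
        _ = cap c := card_range _
    rwa [card_image_of_injOn] at this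
    intro a ha b hb hab
    have ha : (h a).1 = c := by simpa using ha
    have hb : (h b).1 = c := by simpa using hb
    apply hinj
    exact Prod.ext (ha.trans hb.symm) hab
  · intro c hc
    obtain ⟨v, hv⟩ := hcov (c, 0) ⟨hc, rfl⟩
    apply card_pos.mpr
    exact ⟨v, by simp [hv]⟩

/-- Double counting. -/
theorem dcount {ι α : Type} [DecidableEq α] (s : Finset ι) (t : ι → Finset α) :
    ∑ i ∈ s, (t i).card = ∑ a ∈ s.biUnion t, (s.filter (fun i => a ∈ t i)).card := by
  simp only [card_eq_sum_ones]
  apply Finset.sum_comm'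
  intro i a
  simp only [mem_biUnion, mem_filter]
  constructor
  · rintro ⟨h1, h2⟩
    exact ⟨⟨h1, h2⟩, i, h1, h2⟩
  · rintro ⟨⟨h1, h2⟩, _⟩
    exact ⟨h1, h2⟩

/-- If the total slack is smaller than `k`, then Hall's condition holds for a family of sets. -/
theorem hall_slack {ι α : Type} [DecidableEq α] [DecidableEq ι] (t : ι → Finset α)
    (k : ℕ) (w : ι → ℕ)
    (h1 : ∀ i, k ≤ (t i).card + w i)
    (s : Finset ι) (h2 : ∀ a, (s.filter (fun i => a ∈ t i)).card ≤ k)
    (hw : ∑ i ∈ s, w i < k) :
    s.card ≤ (s.biUnion t).card := by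
  have e1 : k * s.card ≤ ∑ i ∈ s, (t i).card + ∑ i ∈ s, w i := by
    rw [← sum_add_distrib]
    calc k * s.card = ∑ i ∈ s, k := by rw [sum_const, smul_eq_mul, mul_comm]
      _ ≤ _ := sum_le_sum (fun i _ => h1 i)
  have e2 : ∑ i ∈ s, (t i).card ≤ k * (s.biUnion t).card := by
    rw [dcount]
    calc _ ≤ ∑ a ∈ s.biUnion t, k := sum_le_sum (fun a _ => h2 a)
      _ = _ := by rw [sum_const, smul_eq_mul, mul_comm]
  by_contra hcon
  push Not at hcon
  have : k * ((s.biUnion t).card + 1) ≤ k * s.card := Nat.mul_le_mul_left k hcon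
  have h3 : k * ((s.biUnion t).card + 1) = k * (s.biUnion t).card + k := by ring
  omega

/-- From usage numbers to floor and ceiling. -/
theorem count_ok (k η u : ℕ) (hk : 0 < k) (h0 : 0 < η) (h2 : η < 2 * k)
    (hu1 : u ≤ if k < η then 2 else 1) (hu2 : k ≤ η → 1 ≤ u) :
    u = ⌊(η : ℚ) / (k : ℚ)⌋₊ ∨ u = ⌈(η : ℚ) / (k : ℚ)⌉₊ := by
  have hkq : (0 : ℚ) < (k : ℚ) := by exact_mod_cast hk
  rw [Nat.floor_div_eq_div]
  rcases lt_trichotomy η k with h | h | h
  · have hf : η / k = 0 := Nat.div_eq_of_lt h
    have hc : ⌈(η : ℚ) / (k : ℚ)⌉₊ = 1 := by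
      rw [Nat.ceil_eq_iff (by norm_num)]
      constructor
      · simp only [tsub_self, Nat.cast_zero]
        have : (0 : ℚ) < (η : ℚ) := by exact_mod_cast h0
        positivity
      · rw [div_le_iff₀ hkq]
        have : (η : ℚ) ≤ (k : ℚ) := by exact_mod_cast h.le
        push_cast
        linarith
    rw [hf, hc]
    rw [if_neg (by omega)] at hu1
    omega
  · subst h
    rw [if_neg (by omega)] at hu1
    have := hu2 le_rfl
    rw [Nat.div_self hk]
    left; omega
  · have hf : η / k = 1 := by
      apply Nat.div_eq_of_lt_le <;> omega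
    have hc : ⌈(η : ℚ) / (k : ℚ)⌉₊ = 2 := by
      rw [Nat.ceil_eq_iff (by norm_num)]
      constructor
      · rw [lt_div_iff₀ hkq]
        have : (k : ℚ) < (η : ℚ) := by exact_mod_cast h
        push_cast
        linarith
      · rw [div_le_iff₀ hkq]
        have : (η : ℚ) ≤ 2 * (k : ℚ) := by exact_mod_cast h2.le
        push_cast
        linarith
    rw [hf, hc]
    rw [if_pos h] at hu1
    have := hu2 h.le
    omega

/-- Case I: few heavy colours. -/
theorem case_few {n m k : ℕ} (hnk : n + m < 2 * k) (L : Fin n ⊕ Fin m → Finset ℕ)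
    (hL : ∀ v, (L v).card = k) (η : ℕ → ℕ)
    (hη : ∀ c, η c = (univ.filter (fun v => c ∈ L v)).card)
    (H : Finset ℕ) (hH : ∀ c, c ∈ H ↔ k < η c) (hfew : n * H.card < k) :
    ∃ f : Fin n ⊕ Fin m → ℕ, (∀ v, f v ∈ L v) ∧ (∀ a b, f (Sum.inl a) ≠ f (Sum.inr b)) ∧
      (∀ c, (univ.filter (fun v => f v = c)).card ≤ if k < η c then 2 else 1) ∧
      (∀ c, k ≤ η c → 1 ≤ (univ.filter (fun v => f v = c)).card) := by
  classical
  have hk : 0 < k := by omega
  have hηle : ∀ c, η c ≤ n + m := by
    intro c
    rw [hη]
    calc _ ≤ (univ : Finset (Fin n ⊕ Fin m)).card := card_filter_le _ _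
      _ = n + m := by simp
  set t : Fin n ⊕ Fin m → Finset ℕ := fun v => if v.isLeft then L v \ H else L v with ht
  have htL : ∀ v, t v ⊆ L v := by
    intro v
    simp only [ht]
    split
    · exact sdiff_subset
    · exact subset_rfl
  have htη : ∀ c, (univ.filter (fun v => c ∈ t v)).card ≤ η c := by
    intro c
    rw [hη]
    apply card_le_card
    intro v hv
    simp only [mem_filter, mem_univ, true_and] at hv ⊢
    exact htL v hv
  -- the must-use colours
  have hUfin : ∃ U : Finset ℕ, ∀ c, c ∈ U ↔ k ≤ η c := by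
    refine ⟨(univ.biUnion L).filter (fun c => k ≤ η c), ?_⟩
    intro c
    simp only [mem_filter, mem_biUnion, mem_univ, true_and, and_iff_right_iff_imp]
    intro h
    have : 0 < (univ.filter (fun v => c ∈ L v)).card := by rw [← hη]; omega
    obtain ⟨v, hv⟩ := card_pos.mp this
    exact ⟨v, (mem_filter.mp hv).2⟩
  obtain ⟨U, hU⟩ := hUfin
  -- capacity condition
  have H1 : ∀ X : Finset (Fin n ⊕ Fin m), X.card ≤
      ∑ c ∈ X.biUnion t, (if k < η c then 2 else 1) := by
    intro X
    have e1 : k * X.card ≤ ∑ v ∈ X, (t v).card + n * H.card := by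
      have a1 : ∀ v ∈ X, k ≤ (t v).card + (if v.isLeft then H.card else 0) := by
        intro v _
        simp only [ht]
        by_cases hv : v.isLeft
        · simp only [hv, if_true]
          have := Finset.le_card_sdiff H (L v)
          rw [hL] at this
          omega
        · simp only [hv]
          simp [hL v]
      have a2 : ∑ v ∈ X, (if v.isLeft then H.card else 0) ≤ n * H.card := by
        calc _ ≤ ∑ v : Fin n ⊕ Fin m, (if v.isLeft then H.card else 0) :=
              sum_le_sum_of_subset (subset_univ X)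
          _ = n * H.card := by
            rw [Fintype.sum_sum_type]
            simp
      calc k * X.card = ∑ v ∈ X, k := by rw [sum_const, smul_eq_mul, mul_comm]
        _ ≤ ∑ v ∈ X, ((t v).card + (if v.isLeft then H.card else 0)) := sum_le_sum a1
        _ = ∑ v ∈ X, (t v).card + ∑ v ∈ X, (if v.isLeft then H.card else 0) := sum_add_distrib
        _ ≤ _ := by omega
    have e2 : ∑ v ∈ X, (t v).card ≤ k * ∑ c ∈ X.biUnion t, (if k < η c then 2 else 1) := by
      rw [dcount, mul_sum]
      apply sum_le_sum
      intro c _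
      have b1 : (X.filter (fun v => c ∈ t v)).card ≤ η c := by
        refine le_trans (card_le_card ?_) (htη c)
        exact filter_subset_filter _ (subset_univ X)
      split
      · have := hηle c
        omega
      · omega
    by_contra hcon
    push Not at hcon
    have h3 := Nat.mul_le_mul_left k (Nat.succ_le_of_lt hcon)
    rw [Nat.succ_eq_add_one, Nat.mul_add, mul_one] at h3
    omega
  -- matching of must-use colours
  have H2 : ∃ g : U → Fin n ⊕ Fin m, Function.Injective g ∧
      ∀ u : U, g u ∈ (univ.filter (fun v => (u : ℕ) ∈ t v)) := by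
    apply (Finset.all_card_le_biUnion_card_iff_exists_injective
      (fun u : U => (univ.filter (fun v : Fin n ⊕ Fin m => (u : ℕ) ∈ t v)))).mp
    intro s
    apply hall_slack _ k (fun u : U => if (u : ℕ) ∈ H then n else 0)
    · intro u
      by_cases hu : (u : ℕ) ∈ H
      · simp only [hu, if_true]
        have h1 : η u ≤ (univ.filter (fun v : Fin n ⊕ Fin m => (u : ℕ) ∈ t v)).card + n := by
          rw [hη]
          have hsub : univ.filter (fun v : Fin n ⊕ Fin m => (u : ℕ) ∈ L v) ⊆
              univ.filter (fun v : Fin n ⊕ Fin m => (u : ℕ) ∈ t v) ∪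
                (univ : Finset (Fin n)).image Sum.inl := by
            intro v hv
            rcases v with a | b
            · simp
            · simp only [mem_filter, mem_univ, true_and] at hv
              simp [ht, hv]
          calc _ ≤ _ := card_le_card hsub
            _ ≤ _ := card_union_le _ _
            _ ≤ _ := by
              have : ((univ : Finset (Fin n)).image (Sum.inl : Fin n → Fin n ⊕ Fin m)).card ≤ n := by
                calc _ ≤ (univ : Finset (Fin n)).card := card_image_le
                  _ = n := by simp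
              omega
        have h2 := (hH u).mp hu
        omega
      · simp only [hu, if_false, add_zero]
        have h1 : univ.filter (fun v : Fin n ⊕ Fin m => (u : ℕ) ∈ t v) =
            univ.filter (fun v : Fin n ⊕ Fin m => (u : ℕ) ∈ L v) := by
          ext v
          simp only [mem_filter, mem_univ, true_and, ht]
          split
          · simp [hu]
          · rfl
        rw [h1, ← hη]
        exact (hU u).mp u.2
    · intro v
      have : (s.filter (fun u : U => v ∈ univ.filter (fun v : Fin n ⊕ Fin m => (u : ℕ) ∈ t v))).card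
          ≤ (L v).card := by
        apply card_le_card_of_injOn (fun u : U => (u : ℕ))
        · intro u hu
          simp only [coe_filter, mem_filter, mem_univ, true_and, Set.mem_ofPred_eq] at hu
          exact htL v hu.2
        · intro a _ b _ hab
          exact Subtype.ext hab
      rw [hL] at this
      exact this
    · calc ∑ u ∈ s, (if (u : ℕ) ∈ H then n else 0)
          = n * (s.filter (fun u : U => (u : ℕ) ∈ H)).card := by
            rw [← sum_filter, sum_const, smul_eq_mul, mul_comm]
        _ ≤ n * H.card := by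
            apply Nat.mul_le_mul_left
            apply card_le_card_of_injOn (fun u : U => (u : ℕ))
            · intro u hu
              simp only [coe_filter, Set.mem_ofPred_eq] at hu
              exact hu.2
            · intro a _ b _ hab
              exact Subtype.ext hab
        _ < k := hfew
  obtain ⟨g, hginj, hgmem⟩ := H2
  obtain ⟨f, hf1, hf2, hf3⟩ := assign t (fun c => if k < η c then 2 else 1) U
    (by intro c _; split <;> norm_num) H1 g hginj
    (by intro u; have := hgmem u; simp only [mem_filter, mem_univ, true_and] at this; exact this)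
  refine ⟨f, fun v => htL v (hf1 v), ?_, hf2, fun c hc => hf3 c ((hU c).mpr hc)⟩
  intro a b hab
  have h1 : f (Sum.inl a) ∈ t (Sum.inl a) := hf1 _
  have h2 : f (Sum.inl a) ∉ H := by
    simp only [ht, Sum.isLeft_inl, if_true, mem_sdiff] at h1
    exact h1.2
  have h3 : ¬ k < η (f (Sum.inl a)) := fun h => h2 ((hH _).mpr h)
  have h4 := hf2 (f (Sum.inl a))
  rw [if_neg h3] at h4
  have h5 := card_le_one.mp h4 (Sum.inl a) (by simp) (Sum.inr b) (by simp [hab])
  exact absurd h5 (by simp)

/-- Case II: many heavy colours. -/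
theorem case_many {n m k : ℕ} (hn : 1 ≤ n) (hnk : m + 2 * n ^ 2 ≤ 2 * k) (hnk' : n ≤ k)
    (L : Fin n ⊕ Fin m → Finset ℕ)
    (hL : ∀ v, (L v).card = k) (η : ℕ → ℕ)
    (hη : ∀ c, η c = (univ.filter (fun v => c ∈ L v)).card)
    (H : Finset ℕ) (hH : ∀ c, c ∈ H ↔ k < η c) (hmany : k ≤ n * H.card) :
    ∃ f : Fin n ⊕ Fin m → ℕ, (∀ v, f v ∈ L v) ∧ (∀ a b, f (Sum.inl a) ≠ f (Sum.inr b)) ∧
      (∀ c, (univ.filter (fun v => f v = c)).card ≤ if k < η c then 2 else 1) ∧
      (∀ c, k ≤ η c → 1 ≤ (univ.filter (fun v => f v = c)).card) := by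
  classical
  have hk : 0 < k := by omega
  have hηB : ∀ c, η c ≤ (univ.filter (fun b : Fin m => c ∈ L (Sum.inr b))).card + n := by
    intro c
    rw [hη]
    have hsub : univ.filter (fun v : Fin n ⊕ Fin m => c ∈ L v) ⊆
        (univ.filter (fun b : Fin m => c ∈ L (Sum.inr b))).image Sum.inr ∪
          (univ : Finset (Fin n)).image Sum.inl := by
      intro v hv
      rcases v with a | b
      · simp
      · simp only [mem_filter, mem_univ, true_and] at hv
        simp [hv]
    calc _ ≤ _ := card_le_card hsub
      _ ≤ _ := card_union_le _ _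
      _ ≤ _ := by
        have h1 : ((univ : Finset (Fin n)).image (Sum.inl : Fin n → Fin n ⊕ Fin m)).card ≤ n := by
          calc _ ≤ (univ : Finset (Fin n)).card := card_image_le
            _ = n := by simp
        have h2 : ((univ.filter (fun b : Fin m => c ∈ L (Sum.inr b))).image
            (Sum.inr : Fin m → Fin n ⊕ Fin m)).card ≤
            (univ.filter (fun b : Fin m => c ∈ L (Sum.inr b))).card := card_image_le
        omega
  -- the must-use colours
  have hUfin : ∃ U : Finset ℕ, ∀ c, c ∈ U ↔ k ≤ η c := by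
    refine ⟨(univ.biUnion L).filter (fun c => k ≤ η c), ?_⟩
    intro c
    simp only [mem_filter, mem_biUnion, mem_univ, true_and, and_iff_right_iff_imp]
    intro h
    have : 0 < (univ.filter (fun v => c ∈ L v)).card := by rw [← hη]; omega
    obtain ⟨v, hv⟩ := card_pos.mp this
    exact ⟨v, (mem_filter.mp hv).2⟩
  obtain ⟨U, hU⟩ := hUfin
  -- matching of the must-use colours into all vertices
  have H2 : ∃ g : U → Fin n ⊕ Fin m, Function.Injective g ∧
      ∀ u : U, g u ∈ (univ.filter (fun v => (u : ℕ) ∈ L v)) := by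
    apply (Finset.all_card_le_biUnion_card_iff_exists_injective
      (fun u : U => (univ.filter (fun v : Fin n ⊕ Fin m => (u : ℕ) ∈ L v)))).mp
    intro s
    apply hall_slack _ k (fun u : U => 0)
    · intro u
      rw [← hη]
      exact (hU u).mp u.2
    · intro v
      have : (s.filter (fun u : U => v ∈ univ.filter (fun v : Fin n ⊕ Fin m => (u : ℕ) ∈ L v))).card
          ≤ (L v).card := by
        apply card_le_card_of_injOn (fun u : U => (u : ℕ))
        · intro u hu
          simp only [coe_filter, mem_filter, mem_univ, true_and, Set.mem_ofPred_eq] at hu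
          exact hu.2
        · intro a _ b _ hab
          exact Subtype.ext hab
      rw [hL] at this
      exact this
    · simp [hk]
  obtain ⟨g, hginj, hgmem⟩ := H2
  have hgmem' : ∀ u : U, (u : ℕ) ∈ L (g u) := by
    intro u
    have := hgmem u
    simp only [mem_filter, mem_univ, true_and] at this
    exact this
  -- distinct representatives for the small side
  have H3 : ∃ s0 : Fin n → ℕ, Function.Injective s0 ∧ ∀ a, s0 a ∈ L (Sum.inl a) := by
    apply (Finset.all_card_le_biUnion_card_iff_exists_injective
      (fun a : Fin n => L (Sum.inl a))).mp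
    intro s
    rcases s.eq_empty_or_nonempty with rfl | ⟨a, ha⟩
    · simp
    · calc s.card ≤ n := by
            calc s.card ≤ (univ : Finset (Fin n)).card := card_le_card (subset_univ s)
              _ = n := by simp
        _ ≤ k := hnk'
        _ = (L (Sum.inl a)).card := (hL _).symm
        _ ≤ _ := card_le_card (subset_biUnion_of_mem (fun a : Fin n => L (Sum.inl a)) ha)
  obtain ⟨s0, hs0inj, hs0mem⟩ := H3
  set US : Set ℕ := {c | ∃ hc : c ∈ U, ∃ a, g ⟨c, hc⟩ = Sum.inl a} with hUS
  have hch : ∀ u : US, ∃ a : Fin n, ∃ hc : (u : ℕ) ∈ U, g ⟨u, hc⟩ = Sum.inl a := by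
    rintro ⟨u, hu, a, ha⟩
    exact ⟨a, hu, ha⟩
  choose g1 hg1U hg1 using hch
  obtain ⟨s, hsinj, hsmem, hscov⟩ := mendelsohn_dulmage
    (fun (a : Fin n) (c : ℕ) => c ∈ L (Sum.inl a)) US s0 hs0inj hs0mem g1
    (by
      intro u v huv
      have h1 := hg1 u
      have h2 := hg1 v
      rw [huv] at h1
      have h3 := hginj (h1.trans h2.symm)
      apply Subtype.ext
      simpa using h3)
    (by
      intro u
      have h1 := hgmem' ⟨u, hg1U u⟩
      rw [hg1 u] at h1
      exact h1)
  set C : Finset ℕ := univ.image s with hC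
  have hCcard : C.card = n := by
    rw [hC, card_image_of_injective _ hsinj]; simp
  -- the large side
  set t : Fin m → Finset ℕ := fun b => L (Sum.inr b) \ C with ht
  have htcard : ∀ b, k ≤ (t b).card + n := by
    intro b
    have := Finset.le_card_sdiff C (L (Sum.inr b))
    rw [hL, hCcard] at this
    simp only [ht]
    omega
  have hgr : ∀ u : (U \ C : Finset ℕ), ∃ b : Fin m,
      g ⟨u, (mem_sdiff.mp u.2).1⟩ = Sum.inr b := by
    intro u
    have huU := (mem_sdiff.mp u.2).1
    have huC := (mem_sdiff.mp u.2).2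
    rcases hgu : g ⟨u, huU⟩ with a | b
    · exfalso
      obtain ⟨a', ha'⟩ := hscov u ⟨huU, a, hgu⟩
      apply huC
      have h5 := mem_image_of_mem s (mem_univ a')
      rw [ha'] at h5
      exact h5
    · exact ⟨b, rfl⟩
  choose g2 hg2 using hgr
  have hg2inj : Function.Injective g2 := by
    intro u v huv
    have h1 := hg2 u
    have h2 := hg2 v
    rw [huv] at h1
    have h3 := hginj (h1.trans h2.symm)
    apply Subtype.ext
    simpa using h3
  have H1 : ∀ X : Finset (Fin m), X.card ≤
      ∑ c ∈ X.biUnion t, (if k < η c then 2 else 1) := by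
    intro X
    have hge : (X.biUnion t).card ≤ ∑ c ∈ X.biUnion t, (if k < η c then 2 else 1) := by
      rw [card_eq_sum_ones]
      apply sum_le_sum
      intro c _
      split <;> norm_num
    rcases X.eq_empty_or_nonempty with rfl | ⟨b, hb⟩
    · simp
    by_cases hX : X.card + n ≤ k
    · have h1 : (t b).card ≤ (X.biUnion t).card := card_le_card (subset_biUnion_of_mem t hb)
      have h2 := htcard b
      omega
    · push Not at hX
      have hXm : X.card ≤ m := by
        calc X.card ≤ (univ : Finset (Fin m)).card := card_le_card (subset_univ X)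
          _ = m := by simp
      have hn2 : n ≤ n ^ 2 := by nlinarith
      have hHX : H \ C ⊆ (X.biUnion t).filter (fun c => c ∈ H) := by
        intro c hc
        have hcH := (mem_sdiff.mp hc).1
        have hcC := (mem_sdiff.mp hc).2
        rw [mem_filter]
        refine ⟨?_, hcH⟩
        have h1 := (hH c).mp hcH
        have h2 := hηB c
        by_contra hcon
        have hdis : Disjoint X (univ.filter (fun b : Fin m => c ∈ L (Sum.inr b))) := by
          rw [disjoint_left]
          intro b hbX hb2
          simp only [mem_filter, mem_univ, true_and] at hb2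
          apply hcon
          rw [mem_biUnion]
          exact ⟨b, hbX, mem_sdiff.mpr ⟨hb2, hcC⟩⟩
        have h3 : X.card + (univ.filter (fun b : Fin m => c ∈ L (Sum.inr b))).card ≤ m := by
          rw [← card_union_of_disjoint hdis]
          calc _ ≤ (univ : Finset (Fin m)).card := card_le_card (subset_univ _)
            _ = m := by simp
        omega
      have hHC : H.card ≤ (H \ C).card + n := by
        have := Finset.le_card_sdiff C H
        rw [hCcard] at this
        omega
      have hHXc : (H \ C).card ≤ ((X.biUnion t).filter (fun c => c ∈ H)).card := card_le_card hHX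
      -- main counting
      have e1 : ∑ c ∈ X.biUnion t, ((X.filter (fun b => c ∈ t b)).card +
          (if c ∈ H then (2 * k - m) else 0)) ≤
          k * ∑ c ∈ X.biUnion t, (if k < η c then 2 else 1) := by
        rw [mul_sum]
        apply sum_le_sum
        intro c _
        have b0 : (X.filter (fun b => c ∈ t b)).card ≤ m :=
          le_trans (card_filter_le _ _) hXm
        by_cases hc : c ∈ H
        · have := (hH c).mp hc
          simp only [hc, this, if_true]
          omega
        · have h1 : ¬ k < η c := fun h => hc ((hH c).mpr h)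
          simp only [hc, h1, if_false]
          have b1 : (X.filter (fun b => c ∈ t b)).card ≤ η c := by
            rw [hη]
            apply card_le_card_of_injOn (fun b => Sum.inr b)
            · intro b hb
              simp only [coe_filter, Set.mem_ofPred_eq, ht, mem_sdiff] at hb
              simp [hb.2.1]
            · intro a _ b _ hab
              exact Sum.inr_injective hab
          omega
      rw [sum_add_distrib, ← dcount] at e1
      have e2 : ∑ c ∈ X.biUnion t, (if c ∈ H then (2 * k - m) else 0) =
          (2 * k - m) * ((X.biUnion t).filter (fun c => c ∈ H)).card := by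
        rw [← sum_filter, sum_const, smul_eq_mul, mul_comm]
      have e3 : k * X.card ≤ ∑ b ∈ X, (t b).card + n * X.card := by
        calc k * X.card = ∑ b ∈ X, k := by rw [sum_const, smul_eq_mul, mul_comm]
          _ ≤ ∑ b ∈ X, ((t b).card + n) := sum_le_sum (fun b _ => htcard b)
          _ = _ := by rw [sum_add_distrib, sum_const, smul_eq_mul, mul_comm n]
      have e4 : n * m ≤ (2 * k - m) * ((X.biUnion t).filter (fun c => c ∈ H)).card := by
        obtain ⟨r, hr⟩ : ∃ r, 2 * k = m + r := ⟨2 * k - m, by omega⟩
        have hr' : 2 * k - m = r := by omega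
        rw [hr']
        have hr2 : 2 * n ^ 2 ≤ r := by omega
        set q := ((X.biUnion t).filter (fun c => c ∈ H)).card
        have hq : k ≤ n * (q + n) := by
          calc k ≤ n * H.card := hmany
            _ ≤ n * (q + n) := Nat.mul_le_mul_left n (by omega)
        -- 2 n r q ≥ r (2 k - 2 n^2) = r (m + r - 2 n^2) ≥ r m ≥ 2 n^2 m
        have hq2 : m + r ≤ 2 * (n * q) + 2 * n ^ 2 := by
          have : n * (q + n) = n * q + n ^ 2 := by ring
          omega
        have hq3 : m ≤ 2 * (n * q) := by omega
        have hq4 : 2 * n ^ 2 * m ≤ r * (2 * (n * q)) := Nat.mul_le_mul hr2 hq3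
        have hq5 : (2 * n) * (n * m) ≤ (2 * n) * (r * q) := by
          calc (2 * n) * (n * m) = 2 * n ^ 2 * m := by ring
            _ ≤ r * (2 * (n * q)) := hq4
            _ = _ := by ring
        exact Nat.le_of_mul_le_mul_left hq5 (by omega)
      have e5 : n * X.card ≤ n * m := Nat.mul_le_mul_left n hXm
      have e6 : k * X.card ≤ k * ∑ c ∈ X.biUnion t, (if k < η c then 2 else 1) := by
        rw [e2] at e1
        omega
      exact Nat.le_of_mul_le_mul_left e6 hk
  obtain ⟨f, hf1, hf2, hf3⟩ := assign t (fun c => if k < η c then 2 else 1) (U \ C)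
    (by intro c _; split <;> norm_num) H1 g2 hg2inj
    (by
      intro u
      have h1 := hgmem' ⟨u, (mem_sdiff.mp u.2).1⟩
      rw [hg2 u] at h1
      exact mem_sdiff.mpr ⟨h1, (mem_sdiff.mp u.2).2⟩)
  refine ⟨Sum.elim s f, ?_, ?_, ?_, ?_⟩
  · intro v
    rcases v with a | b
    · exact hsmem a
    · exact (mem_sdiff.mp (hf1 b)).1
  · intro a b hab
    simp only [Sum.elim_inl, Sum.elim_inr] at hab
    have h1 := (mem_sdiff.mp (hf1 b)).2
    apply h1
    rw [hC, ← hab]
    exact mem_image_of_mem s (mem_univ a)
  · intro c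
    by_cases hc : c ∈ C
    · have : (univ.filter (fun v => Sum.elim s f v = c)).card ≤ 1 := by
        rw [card_le_one]
        intro v hv w hw
        simp only [mem_filter, mem_univ, true_and] at hv hw
        rcases v with a | b
        · rcases w with a' | b'
          · simp only [Sum.elim_inl] at hv hw
            rw [hsinj (hv.trans hw.symm)]
          · simp only [Sum.elim_inr] at hw
            exact absurd (hw ▸ hc) (mem_sdiff.mp (hf1 b')).2
        · simp only [Sum.elim_inr] at hv
          exact absurd (hv ▸ hc) (mem_sdiff.mp (hf1 b)).2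
      split <;> omega
    · have : (univ.filter (fun v => Sum.elim s f v = c)).card ≤
          (univ.filter (fun b => f b = c)).card := by
        have hsub : univ.filter (fun v => Sum.elim s f v = c) ⊆
            (univ.filter (fun b => f b = c)).image Sum.inr := by
          intro v hv
          simp only [mem_filter, mem_univ, true_and] at hv
          rcases v with a | b
          · exfalso
            apply hc
            simp only [Sum.elim_inl] at hv
            rw [hC, ← hv]
            exact mem_image_of_mem s (mem_univ a)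
          · simp only [Sum.elim_inr] at hv
            simp [hv]
        exact le_trans (card_le_card hsub) card_image_le
      exact le_trans this (hf2 c)
  · intro c hc
    by_cases hcC : c ∈ C
    · rw [hC, mem_image] at hcC
      obtain ⟨a, _, ha⟩ := hcC
      apply card_pos.mpr
      exact ⟨Sum.inl a, by simp [ha]⟩
    · have h1 := hf3 c (mem_sdiff.mpr ⟨(hU c).mpr hc, hcC⟩)
      obtain ⟨b, hb⟩ := card_pos.mp h1
      simp only [mem_filter, mem_univ, true_and] at hb
      apply card_pos.mpr
      exact ⟨Sum.inr b, by simp [hb]⟩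

/-- Upper bound. -/
theorem upper {n m k : ℕ} (hn : 1 ≤ n) (hnk : m + 2 * n ^ 2 ≤ 2 * k) :
    PropChoosable (completeBipartiteGraph (Fin n) (Fin m)) k := by
  classical
  intro L hL
  have hn2 : n ≤ n ^ 2 := by nlinarith
  have hnk' : n ≤ k := by omega
  have hk : 0 < k := by omega
  set η : ℕ → ℕ := fun c => (univ.filter (fun v => c ∈ L v)).card with hη
  have hHfin : ∃ H : Finset ℕ, ∀ c, c ∈ H ↔ k < η c := by
    refine ⟨(univ.biUnion L).filter (fun c => k < η c), ?_⟩
    intro c
    simp only [mem_filter, mem_biUnion, mem_univ, true_and, and_iff_right_iff_imp]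
    intro h
    have : 0 < (univ.filter (fun v => c ∈ L v)).card := by
      have : k < (univ.filter (fun v => c ∈ L v)).card := h
      omega
    obtain ⟨v, hv⟩ := card_pos.mp this
    exact ⟨v, (mem_filter.mp hv).2⟩
  obtain ⟨H, hH⟩ := hHfin
  have key : ∃ f : Fin n ⊕ Fin m → ℕ, (∀ v, f v ∈ L v) ∧
      (∀ a b, f (Sum.inl a) ≠ f (Sum.inr b)) ∧
      (∀ c, (univ.filter (fun v => f v = c)).card ≤ if k < η c then 2 else 1) ∧
      (∀ c, k ≤ η c → 1 ≤ (univ.filter (fun v => f v = c)).card) := by
    by_cases hfew : n * H.card < k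
    · exact case_few (by omega) L hL η (fun c => rfl) H hH hfew
    · exact case_many hn hnk hnk' L hL η (fun c => rfl) H hH (by omega)
  obtain ⟨f, hf1, hf2, hf3, hf4⟩ := key
  refine ⟨f, hf1, ?_, ?_⟩
  · intro u v huv
    rcases u with a | b <;> rcases v with a' | b'
    · simp [completeBipartiteGraph] at huv
    · exact hf2 a b'
    · exact (hf2 a' b).symm
    · simp [completeBipartiteGraph] at huv
  · intro c hc
    obtain ⟨v, hv⟩ := hc
    apply count_ok k (η c) _ hk
    · apply card_pos.mpr
      exact ⟨v, by simp [hv]⟩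
    · have : η c ≤ n + m := by
        calc _ ≤ (univ : Finset (Fin n ⊕ Fin m)).card := card_filter_le _ _
          _ = n + m := by simp
      omega
    · exact hf3 c
    · exact hf4 c

/-- Lower bound. -/
theorem lower {n m k : ℕ} (hn : 1 ≤ n) (hk : 1 ≤ k) (hkm : 2 * k ≤ m + 1) :
    ¬ PropChoosable (completeBipartiteGraph (Fin n) (Fin m)) k := by
  classical
  intro h
  -- constant list on `Fin m` and on the vertex `0`, private lists elsewhere
  set L : Fin n ⊕ Fin m → Finset ℕ := fun v =>
    match v with
    | Sum.inl a => (range k).image (fun i => (a : ℕ) * k + i)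
    | Sum.inr _ => range k with hLdef
  have hL : ∀ v, (L v).card = k := by
    intro v
    rcases v with a | b
    · simp only [hLdef]
      rw [card_image_of_injective _ (fun x y hxy => by simpa using hxy), card_range]
    · simp [hLdef]
  obtain ⟨f, hf1, hf2, hf3⟩ := h L hL
  set a0 : Fin n := ⟨0, hn⟩ with ha0
  have h0 : f (Sum.inl a0) ∈ range k := by
    have := hf1 (Sum.inl a0)
    simp only [hLdef, ha0] at this
    simpa using this
  set c := f (Sum.inl a0) with hc
  have hck : c < k := mem_range.mp h0
  -- only the vertex `0` gets colour `c`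
  have hcount : (univ.filter (fun v => f v = c)).card = 1 := by
    rw [card_eq_one]
    refine ⟨Sum.inl a0, ?_⟩
    ext v
    simp only [mem_filter, mem_univ, true_and, mem_singleton]
    constructor
    · intro hv
      rcases v with a | b
      · have h1 := hf1 (Sum.inl a)
        rw [hv] at h1
        simp only [hLdef, mem_image, mem_range] at h1
        obtain ⟨i, _, hi⟩ := h1
        have h2 : (a : ℕ) * k < k := by omega
        have h3 : (a : ℕ) = 0 := by
          by_contra hne
          have : 1 ≤ (a : ℕ) := Nat.one_le_iff_ne_zero.mpr hne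
          have : 1 * k ≤ (a : ℕ) * k := Nat.mul_le_mul_right k this
          omega
        have : a = a0 := by
          apply Fin.ext
          simp [ha0, h3]
        rw [this]
      · exfalso
        apply hf2 (Sum.inl a0) (Sum.inr b) (by simp [completeBipartiteGraph])
        rw [hv]
    · rintro rfl
      rfl
  have hmult : (univ.filter (fun v => c ∈ L v)).card = m + 1 := by
    have : univ.filter (fun v => c ∈ L v) =
        insert (Sum.inl a0) ((univ : Finset (Fin m)).image Sum.inr) := by
      ext v
      simp only [mem_filter, mem_univ, true_and, mem_insert, mem_image]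
      constructor
      · intro hv
        rcases v with a | b
        · left
          simp only [hLdef, mem_image, mem_range] at hv
          obtain ⟨i, _, hi⟩ := hv
          have h2 : (a : ℕ) * k < k := by omega
          have h3 : (a : ℕ) = 0 := by
            by_contra hne
            have : 1 ≤ (a : ℕ) := Nat.one_le_iff_ne_zero.mpr hne
            have : 1 * k ≤ (a : ℕ) * k := Nat.mul_le_mul_right k this
            omega
          have : a = a0 := by
            apply Fin.ext
            simp [ha0, h3]
          rw [this]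
        · right
          exact ⟨b, rfl⟩
      · rintro (rfl | ⟨b, rfl⟩)
        · exact hf1 (Sum.inl a0)
        · simp only [hLdef, mem_range]
          exact hck
    rw [this, card_insert_of_notMem (by simp), card_image_of_injective _ Sum.inr_injective]
    simp
  have hfin := hf3 c ⟨Sum.inl a0, hf1 (Sum.inl a0)⟩
  rw [hcount, hmult] at hfin
  have hkq : (0 : ℚ) < (k : ℚ) := by exact_mod_cast hk
  have hge : (2 : ℚ) ≤ ((m + 1 : ℕ) : ℚ) / (k : ℚ) := by
    rw [le_div_iff₀ hkq]
    exact_mod_cast hkm
  have hfl : 2 ≤ ⌊((m + 1 : ℕ) : ℚ) / (k : ℚ)⌋₊ := Nat.le_floor (by exact_mod_cast hge)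
  have hce : 2 ≤ ⌈((m + 1 : ℕ) : ℚ) / (k : ℚ)⌉₊ := le_trans hfl (Nat.floor_le_ceil _)
  omega

/-- Two-sided bounds `m + 1 < 2 χ ≤ m + 1 + 2 n ^ 2`. -/
theorem bounds (n m : ℕ) (hn : 1 ≤ n) :
    m + 1 < 2 * propChoiceNumber (completeBipartiteGraph (Fin n) (Fin m)) ∧
    2 * propChoiceNumber (completeBipartiteGraph (Fin n) (Fin m)) ≤ m + 1 + 2 * n ^ 2 := by
  set S : Set ℕ := {k : ℕ | 1 ≤ k ∧ PropChoosable (completeBipartiteGraph (Fin n) (Fin m)) k}
    with hS
  have hn2 : n ≤ n ^ 2 := by nlinarith
  have hmem : (m + 1) / 2 + n ^ 2 ∈ S := by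
    refine ⟨by omega, upper hn ?_⟩
    omega
  have hle : sInf S ≤ (m + 1) / 2 + n ^ 2 := Nat.sInf_le hmem
  have hin : sInf S ∈ S := Nat.sInf_mem ⟨_, hmem⟩
  have hgt : m + 1 < 2 * sInf S := by
    by_contra hcon
    push Not at hcon
    exact lower hn hin.1 hcon hin.2
  refine ⟨hgt, ?_⟩
  change 2 * sInf S ≤ m + 1 + 2 * n ^ 2
  omega

/-- For every fixed `n ≥ 1` the ratio `χ_pc(K_{n,m}) / m` tends to `1/2` as `m → ∞`. -/
theorem result (n : ℕ) (hn : 1 ≤ n) :
    Filter.Tendsto
      (fun m : ℕ =>
        (propChoiceNumber (completeBipartiteGraph (Fin n) (Fin m)) : ℝ) / (m : ℝ))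
      Filter.atTop (nhds (1 / 2)) := by
  have hlim : Filter.Tendsto (fun m : ℕ => (1 / 2 : ℝ) + ((1 + 2 * (n : ℝ) ^ 2) / 2) / (m : ℝ))
      Filter.atTop (nhds (1 / 2)) := by
    have h1 := tendsto_const_div_atTop_nhds_zero_nat ((1 + 2 * (n : ℝ) ^ 2) / 2)
    have h2 := h1.const_add (1 / 2 : ℝ)
    simpa using h2
  refine tendsto_of_tendsto_of_tendsto_of_le_of_le' tendsto_const_nhds hlim ?_ ?_
  · filter_upwards [Filter.eventually_ge_atTop 1] with m hm
    have hmpos : (0 : ℝ) < (m : ℝ) := by exact_mod_cast hm
    rw [le_div_iff₀ hmpos]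
    have h := (bounds n m hn).1
    have h' : ((m + 1 : ℕ) : ℝ) <
        ((2 * propChoiceNumber (completeBipartiteGraph (Fin n) (Fin m)) : ℕ) : ℝ) := by
      exact_mod_cast h
    push_cast at h'
    linarith
  · filter_upwards [Filter.eventually_ge_atTop 1] with m hm
    have hmpos : (0 : ℝ) < (m : ℝ) := by exact_mod_cast hm
    rw [div_le_iff₀ hmpos]
    have h := (bounds n m hn).2
    have h' : ((2 * propChoiceNumber (completeBipartiteGraph (Fin n) (Fin m)) : ℕ) : ℝ) ≤
        ((m + 1 + 2 * n ^ 2 : ℕ) : ℝ) := by
      exact_mod_cast h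
    push_cast at h'
    have h3 : ((1 / 2 : ℝ) + ((1 + 2 * (n : ℝ) ^ 2) / 2) / (m : ℝ)) * (m : ℝ) =
        (m : ℝ) / 2 + (1 + 2 * (n : ℝ) ^ 2) / 2 := by
      field_simp
    rw [h3]
    linarith

end Pool.Agent.Results.MP_f66848_co.LimitHalf
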